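import Pool.Agent.V5helper13.RSM.Kum

set_option autoImplicit false

/-!
# Relative Smyth theorem: passing to a compositum
-/

open Polynomial IntermediateField

namespace Pool.Agent.V5helper13.RSM

lemma exists_prim {k L : Type} [Field k] [Field L] [Algebra k L] [CharZero k]
    (K : IntermediateField k L) [FiniteDimensional k K] : ∃ t : L, K = k⟮t⟯ := by
  obtain ⟨θ, hθ⟩ := Field.exists_primitive_element k K
  refine ⟨(θ : L), ?_⟩
  have h1 : (k⟮θ⟯).map K.val = (⊤ : IntermediateField k K).map K.val := by rw [hθ]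
  rw [adjoin_map, Set.image_singleton, ← AlgHom.fieldRange_eq_map, fieldRange_val] at h1
  exact h1.symm

lemma sup_mem {k L : Type} [Field k] [Field L] [Algebra k L] (N : IntermediateField k L) (t : L)
    (x : L) (hx : x ∈ (N ⊔ k⟮t⟯ : IntermediateField k L)) : x ∈ N⟮t⟯ := by
  have hle : N ⊔ k⟮t⟯ ≤ (N⟮t⟯).restrictScalars k := by
    refine sup_le ?_ ?_
    · intro y hy
      rw [mem_restrictScalars]
      exact (N⟮t⟯).algebraMap_mem ⟨y, hy⟩
    · rw [adjoin_le_iff]
      intro y hy
      rw [Set.mem_singleton_iff] at hy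
      rw [hy]
      exact mem_adjoin_simple_self N t
  exact hle hx

lemma fin_bound {k L : Type} [Field k] [Field L] [Algebra k L] (N : IntermediateField k L) (t : L)
    (ht : IsIntegral k t) : Module.finrank N N⟮t⟯ ≤ Module.finrank k k⟮t⟯ := by
  have hi : IsIntegral N t := ht.tower_top
  rw [adjoin.finrank hi, adjoin.finrank ht]
  have h4 := minpoly.dvd_map_of_isScalarTower k N t
  have h5 := natDegree_le_of_dvd h4 (((minpoly.monic ht).map _).ne_zero)
  rwa [natDegree_map] at h5

lemma deg_le_gen {k L : Type} [Field k] [Field L] [Algebra k L] (M : IntermediateField k L)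
    (P : L[X]) (hP : P.Monic) (hcoef : ∀ n, P.coeff n ∈ M) (α : L) (h : P.eval α = 0) :
    (minpoly M α).natDegree ≤ P.natDegree := by
  have hl : P ∈ Polynomial.lifts (algebraMap M L) := by
    rw [Polynomial.lifts_iff_coeff_lifts]
    intro n
    exact ⟨⟨P.coeff n, hcoef n⟩, rfl⟩
  obtain ⟨q, hq, hqd, hqm⟩ := Polynomial.lifts_and_natDegree_eq_and_monic hl hP
  have hq0 : aeval α q = 0 := by
    rw [← eval_map_algebraMap, hq, h]
  have h1 := minpoly.min M α hqm hq0
  have h2 := natDegree_le_natDegree h1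
  rwa [hqd] at h2

lemma deg_comp_gen {k L : Type} [Field k] [Field L] [Algebra k L] (N : IntermediateField k L)
    (t α : L) (ht : IsIntegral k t) (hα : IsIntegral k α) :
    (minpoly N α).natDegree ≤ Module.finrank k k⟮t⟯ *
      (minpoly (N ⊔ k⟮t⟯ : IntermediateField k L) α).natDegree := by
  have hi : IsIntegral N t := ht.tower_top
  have hiα : IsIntegral N α := hα.tower_top
  have hfin : FiniteDimensional N N⟮t⟯ := adjoin.finiteDimensional hi
  have h1 := deg_tower_gen (K := N) (F := N⟮t⟯) (L := L) α hiα.tower_top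
  have hi2 : IsIntegral (N ⊔ k⟮t⟯ : IntermediateField k L) α := hα.tower_top
  have h3 : (minpoly N⟮t⟯ α).natDegree ≤
      (minpoly (N ⊔ k⟮t⟯ : IntermediateField k L) α).natDegree := by
    have h4 := deg_le_gen (N⟮t⟯) ((minpoly (N ⊔ k⟮t⟯ : IntermediateField k L) α).map
      (algebraMap (N ⊔ k⟮t⟯ : IntermediateField k L) L)) ((minpoly.monic hi2).map _) (by
        intro n
        rw [coeff_map]
        exact sup_mem N t _ ((minpoly (N ⊔ k⟮t⟯ : IntermediateField k L) α).coeff n).2) α (by
        rw [eval_map_algebraMap]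
        exact minpoly.aeval _ _)
    rwa [natDegree_map] at h4
  exact h1.trans (Nat.mul_le_mul (fin_bound N t ht) h3)

/-- passing to the compositum with a number field -/
lemma deg_comp (N K : IntermediateField ℚ Qb) (hK : FiniteDimensional ℚ K) (α : Qb) :
    (minpoly N α).natDegree ≤ Module.finrank ℚ K * (minpoly (N ⊔ K : IntermediateField ℚ Qb) α).natDegree := by
  obtain ⟨t, rfl⟩ := exists_prim K
  exact deg_comp_gen N t α (isIntQ t) (isIntQ α)

end Pool.Agent.V5helper13.RSM
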