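import Pool.Agent.V5helper13.RSM.Cnt

set_option autoImplicit false

/-!
# Relative Smyth theorem: groups of unitary numbers
-/

open Polynomial IntermediateField

namespace Pool.Agent.V5helper13.RSM

lemma exists_conj_pair : ∃ (ι : Qb →+* ℂ) (c : Qb ≃ₐ[ℚ] Qb), ∀ x, ι (c x) = starRingEnd ℂ (ι x) := by
  have halg : Algebra.IsAlgebraic ℚ Qb := ⟨fun x => (isIntQ x).isAlgebraic⟩
  let ι : Qb →ₐ[ℚ] ℂ := IsAlgClosed.lift
  let _ : Algebra Qb ℂ := ι.toRingHom.toAlgebra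
  have ht : IsScalarTower ℚ Qb ℂ := IsScalarTower.of_algebraMap_eq (fun x => (ι.commutes x).symm)
  have hn : Normal ℚ Qb := inferInstance
  let χ : ℂ ≃ₐ[ℚ] ℂ := (Complex.conjAe).restrictScalars ℚ
  refine ⟨ι.toRingHom, χ.restrictNormal Qb, fun x => ?_⟩
  exact AlgEquiv.restrictNormal_commutes χ Qb x

lemma conj_of_norm {ι : Qb →+* ℂ} {c : Qb ≃ₐ[ℚ] Qb}
    (hc : ∀ x, ι (c x) = starRingEnd ℂ (ι x)) {z : Qb} (hz : ‖ι z‖ = 1) : c z = z⁻¹ := by
  apply ι.injective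
  rw [hc, map_inv₀, Complex.inv_def, Complex.normSq_eq_norm_sq, hz]
  simp

lemma mem_cm_of_norm {ι : Qb →+* ℂ} {c : Qb ≃ₐ[ℚ] Qb}
    (hc : ∀ x, ι (c x) = starRingEnd ℂ (ι x)) {y : Qb}
    (hy : ∀ σ : Qb ≃ₐ[ℚ] Qb, ‖ι (σ y)‖ = 1) : y ∈ cmField c := by
  intro σ
  have h1 : c y = y⁻¹ := conj_of_norm hc (hy 1)
  rw [h1, conj_of_norm hc (hy σ), map_inv₀]

/-- lifting a polynomial -/
lemma exists_lift (M : IntermediateField ℚ Qb) (P : Qb[X]) (hP : P.Monic)
    (hcoef : ∀ n, P.coeff n ∈ M) : ∃ q : M[X], q.map (algebraMap M Qb) = P ∧ q.Monic ∧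
      q.natDegree = P.natDegree := by
  have hl : P ∈ Polynomial.lifts (algebraMap M Qb) := by
    rw [Polynomial.lifts_iff_coeff_lifts]
    intro n
    exact ⟨⟨P.coeff n, hcoef n⟩, rfl⟩
  obtain ⟨q, hq, hqd, hqm⟩ := Polynomial.lifts_and_natDegree_eq_and_monic hl hP
  exact ⟨q, hq, hqm, hqd⟩

lemma minpoly_sub {M M' : IntermediateField ℚ Qb} (hM : M ≤ M') (α : Qb) :
    (minpoly M' α).natDegree ≤ (minpoly M α).natDegree ∧
      ∀ x : Qb, aeval x (minpoly M' α) = 0 → aeval x (minpoly M α) = 0 := by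
  have hi : IsIntegral M α := (isIntQ α).tower_top
  have hmon := minpoly.monic hi
  obtain ⟨q, hq, hqm, hqd⟩ := exists_lift M' ((minpoly M α).map (algebraMap M Qb)) (hmon.map _)
    (by
      intro n
      rw [coeff_map]
      exact hM ((minpoly M α).coeff n).2)
  have hq0 : aeval α q = 0 := by
    rw [← eval_map_algebraMap, hq, eval_map_algebraMap]
    exact minpoly.aeval _ _
  have hd := minpoly.dvd M' α hq0
  constructor
  · have h1 := natDegree_le_of_dvd hd hqm.ne_zero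
    rw [hqd, natDegree_map] at h1
    exact h1
  · intro x hx
    obtain ⟨r, hr⟩ := hd
    have h2 : aeval x q = 0 := by rw [hr, map_mul, hx, zero_mul]
    rw [← eval_map_algebraMap, hq, eval_map_algebraMap] at h2
    exact h2

end Pool.Agent.V5helper13.RSM
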