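import Pool.Agent.V5helper13.RSM.Gal

set_option autoImplicit false

/-!
# Relative Smyth theorem: counting conjugates
-/

open Polynomial

namespace Pool.Agent.V5helper13.RSM

noncomputable instance instGal : IsGalois ℚ Qb := by
  have e : (DivisionRing.toRatAlgebra : Algebra ℚ Qb) = AlgebraicClosure.instAlgebra ℚ :=
    Subsingleton.elim _ _
  rw [e]
  infer_instance

noncomputable instance instDec : DecidableEq Qb := Classical.decEq Qb

/-- the conjugates of `α` over `ℚ` -/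
noncomputable def R (α : Qb) : Finset Qb := ((minpoly ℚ α).aroots Qb).toFinset

lemma mem_R {α β : Qb} : β ∈ R α ↔ aeval β (minpoly ℚ α) = 0 := by
  rw [R, Multiset.mem_toFinset, mem_aroots]
  exact ⟨fun h => h.2, fun h => ⟨minpoly.ne_zero (isIntQ α), h⟩⟩

lemma self_R (α : Qb) : α ∈ R α := mem_R.2 (minpoly.aeval _ _)

lemma R_stable {α β : Qb} (σ : Qb ≃ₐ[ℚ] Qb) (h : β ∈ R α) : σ β ∈ R α := by
  rw [mem_R] at h ⊢
  have h1 := aeval_algHom_apply (σ : Qb →ₐ[ℚ] Qb) β (minpoly ℚ α)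
  rw [h, map_zero] at h1
  exact h1

lemma minpoly_R {α β : Qb} (h : β ∈ R α) : minpoly ℚ β = minpoly ℚ α :=
  (minpoly.eq_of_irreducible_of_monic (minpoly.irreducible (isIntQ α)) (mem_R.1 h)
    (minpoly.monic (isIntQ α))).symm

lemma exists_conj {α β : Qb} (h : β ∈ R α) : ∃ σ : Qb ≃ₐ[ℚ] Qb, σ α = β := by
  have h1 : IsConjRoot ℚ α β := (minpoly_R h).symm
  obtain ⟨σ, hσ⟩ := isConjRoot_iff_exists_algEquiv.1 h1
  first
    | exact ⟨σ, hσ.symm⟩
    | exact ⟨σ, hσ⟩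
    | exact ⟨σ.symm, by rw [← hσ, AlgEquiv.symm_apply_apply]⟩

lemma int_R {α β : Qb} (hα : IsIntegral ℤ α) (h : β ∈ R α) : IsIntegral ℤ β := by
  obtain ⟨σ, rfl⟩ := exists_conj h
  exact hα.map ((σ : Qb →+* Qb).toIntAlgHom)

lemma prod_ge (ι : Qb →+* ℂ) (α : Qb) (φ : Qb → Qb)
    (heq : ∀ (σ : Qb ≃ₐ[ℚ] Qb) (β : Qb), σ (φ β) = φ (σ β))
    (hint : ∀ β ∈ R α, IsIntegral ℤ (φ β)) (hne : ∀ β ∈ R α, φ β ≠ 0) :
    1 ≤ ∏ β ∈ R α, ‖ι (φ β)‖ := by
  have hfix : ∀ σ : Qb ≃ₐ[ℚ] Qb, σ (∏ β ∈ R α, φ β) = ∏ β ∈ R α, φ β := by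
    intro σ
    rw [map_prod]
    refine Finset.prod_nbij' (fun β => σ β) (fun β => σ.symm β) ?_ ?_ ?_ ?_ ?_
    · intro β hβ
      exact R_stable σ hβ
    · intro β hβ
      exact R_stable σ.symm hβ
    · intro β _
      simp
    · intro β _
      simp
    · intro β _
      exact heq σ β
  obtain ⟨q, hq⟩ := IntermediateField.mem_bot.1 ((InfiniteGalois.mem_bot_iff_fixed _).2 hfix)
  have hNint : IsIntegral ℤ (∏ β ∈ R α, φ β) := IsIntegral.prod _ hint
  have hqint : IsIntegral ℤ q := by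
    rw [← hq] at hNint
    exact (isIntegral_algebraMap_iff (algebraMap ℚ Qb).injective).1 hNint
  obtain ⟨z, hz⟩ := IsIntegrallyClosed.isIntegral_iff.1 hqint
  have hN0 : (∏ β ∈ R α, φ β) ≠ 0 := Finset.prod_ne_zero_iff.2 hne
  have hz0 : z ≠ 0 := by
    rintro rfl
    rw [map_zero] at hz
    rw [← hz, map_zero] at hq
    exact hN0 hq.symm
  have h1 : ∏ β ∈ R α, ‖ι (φ β)‖ = ‖(z : ℂ)‖ := by
    rw [← norm_prod, ← map_prod, ← hq, ← hz]
    congr 1
    simp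
  rw [h1, Complex.norm_intCast]
  exact_mod_cast Int.one_le_abs hz0

lemma gp_nodup (c : Qb ≃ₐ[ℚ] Qb) (β : Qb) : (gp c β).roots.Nodup := by
  have h : (minpoly (cmField c) β).Separable := (minpoly.irreducible (isInt c β)).separable
  exact nodup_roots (h.map)

/-- the conjugates over the CM field -/
noncomputable def S (c : Qb ≃ₐ[ℚ] Qb) (β : Qb) : Finset Qb := (gp c β).roots.toFinset

lemma mem_S {c : Qb ≃ₐ[ℚ] Qb} {β γ : Qb} : γ ∈ S c β ↔ aeval γ (minpoly (cmField c) β) = 0 := by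
  rw [S, Multiset.mem_toFinset, mem_roots (gp_monic c β).ne_zero, IsRoot, gp, eval_map_algebraMap]

lemma card_S (c : Qb ≃ₐ[ℚ] Qb) (β : Qb) : (S c β).card = (minpoly (cmField c) β).natDegree := by
  rw [S, Multiset.toFinset_card_of_nodup (gp_nodup c β), ← gp_natDegree]
  exact (IsAlgClosed.splits (gp c β)).natDegree_eq_card_roots.symm

lemma S_symm {c : Qb ≃ₐ[ℚ] Qb} {β γ : Qb} (h : γ ∈ S c β) : β ∈ S c γ := by
  have h1 : minpoly (cmField c) β = minpoly (cmField c) γ :=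
    minpoly.eq_of_irreducible_of_monic (minpoly.irreducible (isInt c β)) (mem_S.1 h)
      (minpoly.monic (isInt c β))
  rw [mem_S, ← h1]
  exact minpoly.aeval _ _

lemma S_sub {c : Qb ≃ₐ[ℚ] Qb} {α β : Qb} (h : β ∈ R α) : S c β ⊆ R α := by
  intro γ hγ
  rw [mem_R, ← minpoly_R h]
  have h1 := minpoly.dvd_map_of_isScalarTower ℚ (cmField c) β
  obtain ⟨q, hq⟩ := h1
  have h2 : aeval γ ((minpoly ℚ β).map (algebraMap ℚ (cmField c))) = 0 := by
    rw [hq, map_mul, mem_S.1 hγ, zero_mul]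
  rwa [aeval_map_algebraMap] at h2

lemma mahler_prod (ι : Qb →+* ℂ) (Q : Qb[X]) (hQ : Q.Monic) (hn : Q.roots.Nodup) :
    (Q.map ι).mahlerMeasure = ∏ γ ∈ Q.roots.toFinset, max 1 ‖ι γ‖ := by
  rw [mahlerMeasure_eq_leadingCoeff_mul_prod_roots, (hQ.map ι).leadingCoeff, norm_one, one_mul,
    (IsAlgClosed.splits Q).roots_map ι]
  rw [Multiset.map_map]
  unfold Finset.prod
  rw [Multiset.toFinset_val, hn.dedup]
  rfl

lemma log_mahler (ι : Qb →+* ℂ) (Q : Qb[X]) (hQ : Q.Monic) (hn : Q.roots.Nodup) :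
    Real.log (Q.map ι).mahlerMeasure = ∑ γ ∈ Q.roots.toFinset, Real.log (max 1 ‖ι γ‖) := by
  rw [mahler_prod ι Q hQ hn, Real.log_prod]
  intro γ _
  have : (0 : ℝ) < max 1 ‖ι γ‖ := lt_max_of_lt_left one_pos
  exact this.ne'

lemma sum_log (c : Qb ≃ₐ[ℚ] Qb) (ι : Qb →+* ℂ) (α : Qb) :
    ∑ β ∈ R α, Real.log ((gp c β).map ι).mahlerMeasure =
      (minpoly (cmField c) α).natDegree * ∑ γ ∈ R α, Real.log (max 1 ‖ι γ‖) := by
  have h1 : ∀ β ∈ R α, Real.log ((gp c β).map ι).mahlerMeasure =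
      ∑ γ ∈ R α, if γ ∈ S c β then Real.log (max 1 ‖ι γ‖) else 0 := by
    intro β hβ
    rw [log_mahler ι _ (gp_monic c β) (gp_nodup c β), ← Finset.sum_filter]
    congr 1
    ext γ
    rw [Finset.mem_filter]
    exact ⟨fun h => ⟨S_sub hβ h, h⟩, fun h => h.2⟩
  rw [Finset.sum_congr rfl h1, Finset.sum_comm, Finset.mul_sum]
  refine Finset.sum_congr rfl fun γ hγ => ?_
  have h2 : ∀ β ∈ R α, (if γ ∈ S c β then Real.log (max 1 ‖ι γ‖) else 0) =
      if β ∈ S c γ then Real.log (max 1 ‖ι γ‖) else 0 := by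
    intro β _
    by_cases h : γ ∈ S c β
    · rw [if_pos h, if_pos (S_symm h)]
    · rw [if_neg h, if_neg (fun h' => h (S_symm h'))]
  rw [Finset.sum_congr rfl h2, ← Finset.sum_filter]
  have h3 : (R α).filter (fun β => β ∈ S c γ) = S c γ := by
    ext β
    rw [Finset.mem_filter]
    exact ⟨fun h => h.2, fun h => ⟨S_sub hγ h, h⟩⟩
  rw [h3, Finset.sum_const, card_S, nsmul_eq_mul]
  obtain ⟨σ, rfl⟩ := exists_conj hγ
  rw [deg_eq]

lemma card_R (α : Qb) : (R α).card = (minpoly ℚ α).natDegree := by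
  have h : (minpoly ℚ α).Separable := (minpoly.irreducible (isIntQ α)).separable
  have h1 : ((minpoly ℚ α).aroots Qb).Nodup := nodup_roots (h.map)
  rw [R, Multiset.toFinset_card_of_nodup h1, aroots,
    ← (IsAlgClosed.splits _).natDegree_eq_card_roots, natDegree_map]

end Pool.Agent.V5helper13.RSM
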