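import Mathlib

set_option autoImplicit false

/-!
# Relative Smyth theorem: Galois part
-/

open Polynomial

namespace Pool.Agent.V5helper13.RSM

abbrev Qb : Type := AlgebraicClosure ℚ

/-- the maximal CM field (for the complex conjugation `c`): all `x` with `σ (c x) = c (σ x)` for all
automorphisms `σ` -/
def cmField (c : Qb ≃ₐ[ℚ] Qb) : IntermediateField ℚ Qb where
  carrier := {x | ∀ σ : Qb ≃ₐ[ℚ] Qb, σ (c x) = c (σ x)}
  mul_mem' := by
    intro a b ha hb σ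
    have h1 := ha σ
    have h2 := hb σ
    rw [map_mul, map_mul, h1, h2, map_mul, map_mul]
  add_mem' := by
    intro a b ha hb σ
    have h1 := ha σ
    have h2 := hb σ
    rw [map_add, map_add, h1, h2, map_add, map_add]
  algebraMap_mem' := by
    intro r σ
    simp
  inv_mem' := by
    intro a ha σ
    have h1 := ha σ
    rw [map_inv₀, map_inv₀, h1, map_inv₀, map_inv₀]

lemma mem_cm {c : Qb ≃ₐ[ℚ] Qb} {x : Qb} : x ∈ cmField c ↔ ∀ σ : Qb ≃ₐ[ℚ] Qb, σ (c x) = c (σ x) :=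
  Iff.rfl

lemma cm_stable {c : Qb ≃ₐ[ℚ] Qb} (τ : Qb ≃ₐ[ℚ] Qb) {x : Qb} (hx : x ∈ cmField c) :
    τ x ∈ cmField c := by
  intro σ
  have h1 := hx τ
  have h2 := hx (τ.trans σ)
  rw [← h1]
  simpa using h2

/-- the minimal polynomial over the CM field, with coefficients in `Qb` -/
noncomputable def gp (c : Qb ≃ₐ[ℚ] Qb) (β : Qb) : Qb[X] :=
  (minpoly (cmField c) β).map (algebraMap (cmField c) Qb)

lemma isIntQ (β : Qb) : IsIntegral ℚ β := by
  have h := ((AlgebraicClosure.isAlgebraic ℚ).isAlgebraic β).isIntegral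
  have e : (DivisionRing.toRatAlgebra : Algebra ℚ Qb) = AlgebraicClosure.instAlgebra ℚ :=
    Subsingleton.elim _ _
  rw [e]
  exact h

lemma isInt (c : Qb ≃ₐ[ℚ] Qb) (β : Qb) : IsIntegral (cmField c) β :=
  (isIntQ β).tower_top

lemma gp_monic (c : Qb ≃ₐ[ℚ] Qb) (β : Qb) : (gp c β).Monic :=
  (minpoly.monic (isInt c β)).map _

lemma gp_natDegree (c : Qb ≃ₐ[ℚ] Qb) (β : Qb) :
    (gp c β).natDegree = (minpoly (cmField c) β).natDegree := natDegree_map _

lemma gp_coeff_mem (c : Qb ≃ₐ[ℚ] Qb) (β : Qb) (n : ℕ) : (gp c β).coeff n ∈ cmField c := by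
  rw [gp, coeff_map]
  exact ((minpoly (cmField c) β).coeff n).2

lemma gp_root (c : Qb ≃ₐ[ℚ] Qb) (β : Qb) : (gp c β).eval β = 0 := by
  rw [gp, eval_map_algebraMap]
  exact minpoly.aeval _ _

/-- an automorphism restricted to the CM field -/
noncomputable def res (c : Qb ≃ₐ[ℚ] Qb) (σ : Qb ≃ₐ[ℚ] Qb) : cmField c →+* cmField c :=
  RingHom.restrict (σ : Qb →+* Qb) (cmField c) (cmField c) (fun _ hx => cm_stable σ hx)

lemma algebraMap_res (c : Qb ≃ₐ[ℚ] Qb) (σ : Qb ≃ₐ[ℚ] Qb) (x : cmField c) :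
    algebraMap (cmField c) Qb (res c σ x) = σ (algebraMap (cmField c) Qb x) := rfl

lemma map_res (c : Qb ≃ₐ[ℚ] Qb) (σ : Qb ≃ₐ[ℚ] Qb) (P : (cmField c)[X]) :
    (P.map (res c σ)).map (algebraMap (cmField c) Qb) =
      (P.map (algebraMap (cmField c) Qb)).map (σ : Qb →+* Qb) := by
  rw [Polynomial.map_map, Polynomial.map_map]
  congr 1

lemma aeval_res (c : Qb ≃ₐ[ℚ] Qb) (σ : Qb ≃ₐ[ℚ] Qb) (β : Qb) :
    aeval (σ β) ((minpoly (cmField c) β).map (res c σ)) = 0 := by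
  have h := gp_root c β
  rw [← eval_map_algebraMap, map_res]
  have h2 : ((gp c β).map (σ : Qb →+* Qb)).eval ((σ : Qb →+* Qb) β) = 0 := by
    rw [eval_map, eval₂_hom, h, map_zero]
  exact h2

lemma deg_le (c : Qb ≃ₐ[ℚ] Qb) (σ : Qb ≃ₐ[ℚ] Qb) (β : Qb) :
    (minpoly (cmField c) (σ β)).natDegree ≤ (minpoly (cmField c) β).natDegree := by
  have h1 := minpoly.dvd (cmField c) (σ β) (aeval_res c σ β)
  have hm : ((minpoly (cmField c) β).map (res c σ)).Monic := (minpoly.monic (isInt c β)).map _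
  have h2 := natDegree_le_of_dvd h1 hm.ne_zero
  rwa [natDegree_map] at h2

lemma deg_eq (c : Qb ≃ₐ[ℚ] Qb) (σ : Qb ≃ₐ[ℚ] Qb) (β : Qb) :
    (minpoly (cmField c) (σ β)).natDegree = (minpoly (cmField c) β).natDegree := by
  refine le_antisymm (deg_le c σ β) ?_
  have h := deg_le c σ.symm (σ β)
  rwa [AlgEquiv.symm_apply_apply] at h

lemma gp_equiv (c : Qb ≃ₐ[ℚ] Qb) (σ : Qb ≃ₐ[ℚ] Qb) (β : Qb) :
    (gp c β).map (σ : Qb →+* Qb) = gp c (σ β) := by
  have hm : ((minpoly (cmField c) β).map (res c σ)).Monic := (minpoly.monic (isInt c β)).map _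
  have h : (minpoly (cmField c) β).map (res c σ) = minpoly (cmField c) (σ β) := by
    refine minpoly.unique _ _ hm (aeval_res c σ β) ?_
    intro q hq hq0
    have h1 := minpoly.min (cmField c) (σ β) hq hq0
    refine le_trans (le_of_eq ?_) h1
    rw [degree_eq_natDegree hm.ne_zero, degree_eq_natDegree (minpoly.ne_zero (isInt c (σ β))),
      natDegree_map, deg_eq]
  rw [gp, ← map_res, h, gp]

lemma rev_map {K L : Type} [Field K] [Field L] (f : K →+* L) (P : K[X]) :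
    (P.map f).reverse = P.reverse.map f := by
  ext n
  rw [coeff_reverse, coeff_map, coeff_map, coeff_reverse, natDegree_map]

/-- `P - P(0) P^` -/
noncomputable def ep (c : Qb ≃ₐ[ℚ] Qb) (P : Qb[X]) : Qb[X] :=
  P - C (P.coeff 0) * (P.map (c : Qb →+* Qb)).reverse

lemma ep_equiv (c : Qb ≃ₐ[ℚ] Qb) (σ : Qb ≃ₐ[ℚ] Qb) (β : Qb) :
    (ep c (gp c β)).map (σ : Qb →+* Qb) = ep c (gp c (σ β)) := by
  have h1 : ((gp c β).map (c : Qb →+* Qb)).map (σ : Qb →+* Qb) =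
      ((gp c β).map (σ : Qb →+* Qb)).map (c : Qb →+* Qb) := by
    ext n
    rw [coeff_map, coeff_map, coeff_map, coeff_map]
    exact gp_coeff_mem c β n σ
  rw [ep, ep, Polynomial.map_sub, Polynomial.map_mul, Polynomial.map_C, ← rev_map, h1, gp_equiv,
    ← gp_equiv c σ β, coeff_map]

lemma ep_coeff_equiv (c : Qb ≃ₐ[ℚ] Qb) (σ : Qb ≃ₐ[ℚ] Qb) (β : Qb) (k : ℕ) :
    σ ((ep c (gp c β)).coeff k) = (ep c (gp c (σ β))).coeff k := by
  rw [← ep_equiv, coeff_map]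
  rfl

lemma ep_map (c : Qb ≃ₐ[ℚ] Qb) (ι : Qb →+* ℂ) (hc : ∀ x, ι (c x) = starRingEnd ℂ (ι x))
    (P : Qb[X]) : (ep c P).map ι =
      P.map ι - C ((P.map ι).coeff 0) * ((P.map ι).map (starRingEnd ℂ)).reverse := by
  have h1 : (P.map (c : Qb →+* Qb)).map ι = (P.map ι).map (starRingEnd ℂ) := by
    ext n
    rw [coeff_map, coeff_map, coeff_map, coeff_map]
    exact hc _
  rw [ep, Polynomial.map_sub, Polynomial.map_mul, Polynomial.map_C, ← rev_map, h1, coeff_map]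

end Pool.Agent.V5helper13.RSM
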