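import Pool.Agent.V5helper13.RSM.Cnt

set_option autoImplicit false

/-!
# Relative Smyth theorem: division groups
-/

open Polynomial IntermediateField

namespace Pool.Agent.V5helper13.RSM

/-- `β` lies in the division group of `Γ` -/
def InDiv (Γ : Subgroup Qbˣ) (β : Qb) : Prop := ∃ n : ℕ, 0 < n ∧ ∃ g ∈ Γ, β ^ n = (g : Qb)

/-- a monic polynomial with coefficients in `M` which vanishes at `α` -/
lemma deg_le_of_coeff {k : Type} [Field k] [Algebra k Qb] (M : IntermediateField k Qb) (P : Qb[X])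
    (hP : P.Monic) (hcoef : ∀ n, P.coeff n ∈ M) (α : Qb) (h : P.eval α = 0) :
    (minpoly M α).natDegree ≤ P.natDegree := by
  have hl : P ∈ Polynomial.lifts (algebraMap M Qb) := by
    rw [Polynomial.lifts_iff_coeff_lifts]
    intro n
    exact ⟨⟨P.coeff n, hcoef n⟩, rfl⟩
  obtain ⟨q, hq, hqd, hqm⟩ := Polynomial.lifts_and_natDegree_eq_and_monic hl hP
  have hq0 : aeval α q = 0 := by
    rw [← eval_map_algebraMap, hq, h]
  have h1 := minpoly.min M α hqm hq0
  have h2 := natDegree_le_natDegree h1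
  rwa [hqd] at h2

variable (B : IntermediateField ℚ Qb) (Γ : Subgroup Qbˣ)

/-- the field generated over the field `B` by the division group -/
noncomputable def kum : IntermediateField (B) Qb :=
  IntermediateField.adjoin (B) {y | InDiv Γ y}

noncomputable instance instGalCM : IsGalois (B) Qb := IsGalois.tower_top_intermediateField _

lemma kum_stable (hΓ : ∀ g ∈ Γ, (g : Qb) ∈ B) (σ : Qb ≃ₐ[B] Qb) {x : Qb}
    (hx : x ∈ kum B Γ) : σ x ∈ kum B Γ := by
  have h1 : (kum B Γ).map (σ : Qb →ₐ[B] Qb) ≤ kum B Γ := by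
    rw [kum, adjoin_map, adjoin_le_iff]
    rintro _ ⟨y, ⟨n, hn, g, hg, hy⟩, rfl⟩
    refine subset_adjoin _ _ ⟨n, hn, g, hg, ?_⟩
    have h2 : σ (g : Qb) = (g : Qb) := σ.commutes ⟨(g : Qb), hΓ g hg⟩
    change (σ y) ^ n = _
    rw [← map_pow, hy, h2]
  exact h1 ⟨x, hx, rfl⟩

/-- the minimal polynomial over `kum` -/
noncomputable def kp (β : Qb) : Qb[X] := (minpoly (kum B Γ) β).map (algebraMap (kum B Γ) Qb)

lemma isIntB (β : Qb) : IsIntegral B β := (isIntQ β).tower_top

lemma isIntK (β : Qb) : IsIntegral (kum B Γ) β := (isIntB B β).tower_top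

lemma kp_monic (β : Qb) : (kp B Γ β).Monic := (minpoly.monic (isIntK B Γ β)).map _

lemma kp_root (β : Qb) : (kp B Γ β).eval β = 0 := by
  rw [kp, eval_map_algebraMap]
  exact minpoly.aeval _ _

lemma kp_natDegree (β : Qb) : (kp B Γ β).natDegree = (minpoly (kum B Γ) β).natDegree :=
  natDegree_map _

lemma kp_coeff_mem (β : Qb) (n : ℕ) : (kp B Γ β).coeff n ∈ kum B Γ := by
  rw [kp, coeff_map]
  exact ((minpoly (kum B Γ) β).coeff n).2

/-- a monic polynomial over `kum` vanishing at `β`, of degree at most that of the minimal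
polynomial, is the minimal polynomial -/
lemma kp_unique (β : Qb) (P : Qb[X]) (hP : P.Monic) (hcoef : ∀ n, P.coeff n ∈ kum B Γ)
    (h : P.eval β = 0) (hd : P.natDegree ≤ (kp B Γ β).natDegree) : P = kp B Γ β := by
  have hl : P ∈ Polynomial.lifts (algebraMap (kum B Γ) Qb) := by
    rw [Polynomial.lifts_iff_coeff_lifts]
    intro n
    exact ⟨⟨P.coeff n, hcoef n⟩, rfl⟩
  obtain ⟨q, hq, hqd, hqm⟩ := Polynomial.lifts_and_natDegree_eq_and_monic hl hP
  have hq0 : aeval β q = 0 := by
    rw [← eval_map_algebraMap, hq, h]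
  have h1 : q = minpoly (kum B Γ) β := by
    refine minpoly.unique _ _ hqm hq0 ?_
    intro p hp hp0
    refine le_trans ?_ (minpoly.min (kum B Γ) β hp hp0)
    rw [degree_eq_natDegree hqm.ne_zero, degree_eq_natDegree (minpoly.ne_zero (isIntK B Γ β)), hqd,
      ← kp_natDegree]
    exact_mod_cast hd
  rw [← hq, h1, kp]

lemma kp_fixed (hΓ : ∀ g ∈ Γ, (g : Qb) ∈ B) (α : Qb) (σ : Qb ≃ₐ[B] Qb)
    (hσ : σ α = α) : (kp B Γ α).map (σ : Qb →+* Qb) = kp B Γ α := by
  refine kp_unique B Γ α _ ((kp_monic B Γ α).map _) ?_ ?_ ?_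
  · intro n
    rw [coeff_map]
    exact kum_stable B Γ hΓ σ (kp_coeff_mem B Γ α n)
  · have h1 : ((kp B Γ α).map (σ : Qb →+* Qb)).eval ((σ : Qb →+* Qb) α) = 0 := by
      rw [eval_map, eval₂_hom, kp_root, map_zero]
    have h2 : (σ : Qb →+* Qb) α = α := hσ
    rwa [h2] at h1
  · rw [natDegree_map]

/-- the intersection of `B(α)` and `B(Γ_div)` -/
noncomputable def inter (α : Qb) : IntermediateField (B) Qb :=
  (B)⟮α⟯ ⊓ kum B Γ

lemma kp_coeff_mem' (hΓ : ∀ g ∈ Γ, (g : Qb) ∈ B) (α : Qb) (n : ℕ) :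
    (kp B Γ α).coeff n ∈ inter B Γ α := by
  refine ⟨?_, kp_coeff_mem B Γ α n⟩
  have h1 := InfiniteGalois.fixedField_fixingSubgroup ((B)⟮α⟯)
  have h2 : (kp B Γ α).coeff n ∈ IntermediateField.fixedField ((B)⟮α⟯).fixingSubgroup := by
    rw [IntermediateField.mem_fixedField_iff]
    intro σ hσ
    have h3 : σ α = α := by
      rw [IntermediateField.mem_fixingSubgroup_iff] at hσ
      exact hσ α (mem_adjoin_simple_self _ α)
    have h4 := kp_fixed B Γ hΓ α σ h3
    have h5 := congrArg (fun P : Qb[X] => P.coeff n) h4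
    simp only [coeff_map] at h5
    exact h5
  rw [h1] at h2
  exact h2

/-- the degree of `B(α) ∩ B(Γ_div)` over `B` -/
noncomputable def kummerDegree (α : Qb) : ℕ := Module.finrank (B) (inter B Γ α)

lemma fin_simple (α : Qb) : FiniteDimensional (B) ((B)⟮α⟯) :=
  adjoin.finiteDimensional (isIntB B α)

lemma fin_inter (α : Qb) : FiniteDimensional (B) (inter B Γ α) := by
  have := fin_simple B α
  let i := IntermediateField.inclusion (inf_le_left : inter B Γ α ≤ (B)⟮α⟯)
  exact FiniteDimensional.of_injective i.toLinearMap i.injective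

lemma deg_tower_gen {K F L : Type} [Field K] [Field F] [Field L] [Algebra K F] [Algebra F L]
    [Algebra K L] [IsScalarTower K F L] [FiniteDimensional K F] (α : L) (hi : IsIntegral F α) :
    (minpoly K α).natDegree ≤ Module.finrank K F * (minpoly F α).natDegree := by
  have h1 : FiniteDimensional F F⟮α⟯ := adjoin.finiteDimensional hi
  have h2 : FiniteDimensional K F⟮α⟯ := FiniteDimensional.trans K F _
  have h3 : (minpoly K (AdjoinSimple.gen F α)).natDegree ≤ Module.finrank K F⟮α⟯ :=
    minpoly.natDegree_le _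
  have h6 : IsScalarTower K F⟮α⟯ L := IsScalarTower.of_algebraMap_eq (fun x => by
    rw [IsScalarTower.algebraMap_apply K F L, IsScalarTower.algebraMap_apply K F F⟮α⟯,
      ← IsScalarTower.algebraMap_apply F F⟮α⟯ L])
  have h4 : minpoly K (AdjoinSimple.gen F α) = minpoly K α := by
    have h5 := minpoly.algebraMap_eq (A := K) (algebraMap F⟮α⟯ L).injective (AdjoinSimple.gen F α)
    rw [AdjoinSimple.algebraMap_gen] at h5
    exact h5.symm
  rw [h4, ← Module.finrank_mul_finrank K F, adjoin.finrank hi] at h3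
  exact h3

lemma deg_tower (α : Qb) : (minpoly (B) α).natDegree ≤
    kummerDegree B Γ α * (minpoly (inter B Γ α) α).natDegree := by
  have h0 := fin_inter B Γ α
  exact deg_tower_gen (K := B) (F := inter B Γ α) α ((isIntB B α).tower_top)

lemma deg_main (hΓ : ∀ g ∈ Γ, (g : Qb) ∈ B) (α : Qb) :
    (minpoly (B) α).natDegree ≤ kummerDegree B Γ α * (minpoly (kum B Γ) α).natDegree := by
  refine (deg_tower B Γ α).trans (Nat.mul_le_mul_left _ ?_)
  rw [← kp_natDegree]
  exact deg_le_of_coeff (inter B Γ α) (kp B Γ α) (kp_monic B Γ α) (kp_coeff_mem' B Γ hΓ α) α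
    (kp_root B Γ α)

/-- the field generated by the division group -/
noncomputable def divisionField : IntermediateField ℚ Qb :=
  IntermediateField.adjoin ℚ {y | InDiv Γ y}

lemma div_le_kum {x : Qb} (hx : x ∈ divisionField Γ) : x ∈ kum B Γ := by
  have h1 : divisionField Γ ≤ (kum B Γ).restrictScalars ℚ := by
    rw [divisionField, adjoin_le_iff]
    intro y hy
    exact subset_adjoin _ _ hy
  exact h1 hx

lemma deg_div (α : Qb) :
    (minpoly (kum B Γ) α).natDegree ≤ (minpoly (divisionField Γ) α).natDegree := by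
  have hi : IsIntegral (divisionField Γ) α := (isIntQ α).tower_top
  have h1 := deg_le_of_coeff (kum B Γ) ((minpoly (divisionField Γ) α).map
    (algebraMap (divisionField Γ) Qb)) ((minpoly.monic hi).map _) (by
      intro n
      rw [coeff_map]
      exact div_le_kum B Γ ((minpoly (divisionField Γ) α).coeff n).2) α (by
      rw [eval_map_algebraMap]
      exact minpoly.aeval _ _)
  rwa [natDegree_map] at h1

end Pool.Agent.V5helper13.RSM
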