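import Pool.Agent.V5helper13.RSM.Val
import Pool.Agent.V5helper61.RSM.AN

set_option autoImplicit false

/-!
# Relative Smyth theorem: the inequality
-/

open Polynomial

namespace Pool.Agent.V5helper13.RSM

lemma coeff_zero_ne (c : Qb ≃ₐ[ℚ] Qb) {β : Qb} (h : β ≠ 0) : (gp c β).coeff 0 ≠ 0 := by
  rw [gp, coeff_map]
  have h1 := minpoly.coeff_zero_ne_zero (isInt c β) h
  intro h2
  exact h1 ((algebraMap (cmField c) Qb).injective (by rw [h2, map_zero]))

lemma ep_ne (c : Qb ≃ₐ[ℚ] Qb) {α : Qb} (h0 : α ≠ 0)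
    (hns : aeval ((c α)⁻¹) (minpoly (cmField c) α) ≠ 0) : ep c (gp c α) ≠ 0 := by
  intro h
  apply hns
  rw [← eval_map_algebraMap]
  change (gp c α).eval ((c α)⁻¹) = 0
  rw [ep, sub_eq_zero] at h
  rw [h, eval_mul, eval_C]
  have hc0 : c α ≠ 0 := fun h' => h0 (by
    have := congrArg c.symm h'
    simpa using this)
  have h1 : ((gp c α).map (c : Qb →+* Qb)).reverse.eval ((c α)⁻¹) = 0 := by
    let _ : Invertible (c α) := invertibleOfNonzero hc0
    have h2 := (eval₂_reverse_eq_zero_iff (RingHom.id Qb) (c α)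
      ((gp c α).map (c : Qb →+* Qb))).2 (by
        have h3 : ((gp c α).map (c : Qb →+* Qb)).eval ((c : Qb →+* Qb) α) = 0 := by
          rw [eval_map, eval₂_hom, gp_root, map_zero]
        exact h3)
    rw [invOf_eq_inv] at h2
    exact h2
  rw [h1, mul_zero]

theorem main_sum (ι : Qb →+* ℂ) (c : Qb ≃ₐ[ℚ] Qb)
    (hc : ∀ x, ι (c x) = starRingEnd ℂ (ι x)) (α : Qb) (h0 : α ≠ 0)
    (f : ℤ[X]) (hf : Irreducible f) (hfα : aeval α f = 0)
    (hns : aeval ((c α)⁻¹) (minpoly (cmField c) α) ≠ 0) :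
    (1 : ℝ) / 6 * (R α).card ≤ (minpoly (cmField c) α).natDegree *
      (Real.log |(f.leadingCoeff : ℝ)| + ∑ γ ∈ R α, Real.log (max 1 ‖ι γ‖)) := by
  rw [mul_add, ← sum_log]
  set D := (minpoly (cmField c) α).natDegree with hD
  have hlc : f.leadingCoeff ≠ 0 := leadingCoeff_ne_zero.2 hf.ne_zero
  have hlcR : (1 : ℝ) ≤ |(f.leadingCoeff : ℝ)| := by exact_mod_cast Int.one_le_abs hlc
  set k := (ep c (gp c α)).natTrailingDegree with hk
  have hE := ep_ne c h0 hns
  have hak : (ep c (gp c α)).coeff k ≠ 0 := mt Polynomial.trailingCoeff_eq_zero.1 hE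
  have hR0 : ∀ β ∈ R α, β ≠ 0 := by
    intro β hβ h
    obtain ⟨σ, hσ⟩ := exists_conj hβ
    rw [h] at hσ
    apply h0
    have := congrArg σ.symm hσ
    simpa using this
  have hne : ∀ β ∈ R α, (ep c (gp c β)).coeff k ≠ 0 := by
    intro β hβ
    obtain ⟨σ, rfl⟩ := exists_conj hβ
    rw [← ep_coeff_equiv]
    intro h
    apply hak
    have := congrArg σ.symm h
    simpa using this
  have hlow : ∀ β ∈ R α, ∀ j < k, (ep c (gp c β)).coeff j = 0 := by
    intro β hβ j hj
    obtain ⟨σ, rfl⟩ := exists_conj hβ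
    rw [← ep_coeff_equiv, Polynomial.coeff_eq_zero_of_lt_natTrailingDegree hj, map_zero]
  have hιn : ∀ x : Qb, x ≠ 0 → 0 < ‖ι x‖ := fun x hx => norm_pos_iff.2 ((map_ne_zero ι).2 hx)
  -- the two norms
  have hprod1 := prod_ge2 ι α (fun β => (ep c (gp c β)).coeff k)
    (fun σ β => ep_coeff_equiv c σ β k) hne f.leadingCoeff hlc (2 * D)
    (int_ep c f hf α hfα k)
  have hprod2 := prod_ge2 ι α (fun β => (gp c β).coeff 0)
    (fun σ β => by rw [← gp_equiv, coeff_map]; rfl)
    (fun β hβ => coeff_zero_ne c (hR0 β hβ)) f.leadingCoeff hlc D (int_gp c f hf α hfα)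
  have hs1 : 0 ≤ 2 * D * Real.log |(f.leadingCoeff : ℝ)| +
      ∑ β ∈ R α, Real.log ‖ι ((ep c (gp c β)).coeff k)‖ := by
    have h1 := Real.log_nonneg hprod1
    rw [Real.log_mul (by positivity) (Finset.prod_ne_zero_iff.2
      fun β hβ => (hιn _ (hne β hβ)).ne'), Real.log_pow,
      Real.log_prod (fun β hβ => (hιn _ (hne β hβ)).ne')] at h1
    push_cast at h1
    linarith
  have hs2 : 0 ≤ D * Real.log |(f.leadingCoeff : ℝ)| +
      ∑ β ∈ R α, Real.log ‖ι ((gp c β).coeff 0)‖ := by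
    have h1 := Real.log_nonneg hprod2
    rw [Real.log_mul (by positivity) (Finset.prod_ne_zero_iff.2
      fun β hβ => (hιn _ (coeff_zero_ne c (hR0 β hβ))).ne'), Real.log_pow,
      Real.log_prod (fun β hβ => (hιn _ (coeff_zero_ne c (hR0 β hβ))).ne')] at h1
    linarith
  -- the analytic inequality
  have hmain : ∀ β ∈ R α, Real.log ‖ι ((ep c (gp c β)).coeff k)‖ ≤
      8 * Real.log ((gp c β).map ι).mahlerMeasure - 3 * Real.log ‖ι ((gp c β).coeff 0)‖ - 4 / 3 := by
    intro β hβ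
    have hmon : ((gp c β).map ι).Monic := (gp_monic c β).map ι
    have hc0 : ((gp c β).map ι).coeff 0 ≠ 0 := by
      rw [coeff_map]
      exact (map_ne_zero ι).2 (coeff_zero_ne c (hR0 β hβ))
    have h1 := Pool.Agent.V5helper61.RSM.t_AN ((gp c β).map ι) hmon hc0 k (by
      intro j hj
      rw [← ep_map c ι hc, coeff_map, hlow β hβ j hj, map_zero])
    rw [← ep_map c ι hc, coeff_map, coeff_map] at h1
    have hMpos : 0 < ((gp c β).map ι).mahlerMeasure := mahlerMeasure_pos_of_ne_zero hmon.ne_zero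
    set M := ((gp c β).map ι).mahlerMeasure with hM
    set B := Real.log ‖ι ((gp c β).coeff 0)‖ with hB
    have hpos := hιn _ (hne β hβ)
    have ht : 0 < 2 * (2 * Real.log M - B) := by
      by_contra hcon
      push Not at hcon
      have : M ^ 2 * (2 * (2 * Real.log M - B)) ≤ 0 :=
        mul_nonpos_of_nonneg_of_nonpos (by positivity) hcon
      linarith
    have h2 := Real.log_le_log hpos h1
    rw [Real.log_mul (by positivity) ht.ne', Real.log_pow] at h2
    have h3 : Real.log (2 * (2 * Real.log M - B)) ≤ 3 / 2 * (2 * (2 * Real.log M - B)) - 4 / 3 := by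
      have h4 : Real.log (3 / 2 * (2 * (2 * Real.log M - B))) ≤
          3 / 2 * (2 * (2 * Real.log M - B)) - 1 := Real.log_le_sub_one_of_pos (by positivity)
      have h5 : Real.log (2 / 3 : ℝ) ≤ 2 / 3 - 1 := Real.log_le_sub_one_of_pos (by norm_num)
      have h6 : Real.log (3 / 2 * (2 * (2 * Real.log M - B))) =
          Real.log (2 * (2 * Real.log M - B)) - Real.log (2 / 3) := by
        rw [← Real.log_div ht.ne' (by norm_num)]
        congr 1
        field_simp
      linarith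
    push_cast at h2
    linarith
  have hsum := Finset.sum_le_sum hmain
  rw [Finset.sum_sub_distrib, Finset.sum_sub_distrib, ← Finset.mul_sum, ← Finset.mul_sum,
    Finset.sum_const, nsmul_eq_mul] at hsum
  have hlog : 0 ≤ D * Real.log |(f.leadingCoeff : ℝ)| :=
    mul_nonneg (Nat.cast_nonneg _) (Real.log_nonneg hlcR)
  linarith

/-- **Relative Smyth theorem over the maximal CM field.** -/
theorem relative_smyth (ι : Qb →+* ℂ) (c : Qb ≃ₐ[ℚ] Qb)
    (hc : ∀ x, ι (c x) = starRingEnd ℂ (ι x)) (α : Qb) (h0 : α ≠ 0)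
    (f : ℤ[X]) (hf : Irreducible f) (hfα : aeval α f = 0)
    (hns : aeval ((c α)⁻¹) (minpoly (cmField c) α) ≠ 0) :
    (1 : ℝ) / 6 ≤ (minpoly (cmField c) α).natDegree *
      (Real.log (f.map (Int.castRingHom ℂ)).mahlerMeasure / f.natDegree) := by
  have h1 := main_sum ι c hc α h0 f hf hfα hns
  have h2 := map_eq f hf α hfα
  have hlc : f.leadingCoeff ≠ 0 := leadingCoeff_ne_zero.2 hf.ne_zero
  have hlc' : (f.leadingCoeff : Qb) ≠ 0 := by exact_mod_cast hlc
  have hmonp : (∏ γ ∈ R α, (X - C γ : Qb[X])).Monic := monic_prod_of_monic _ _ fun γ _ => monic_X_sub_C γ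
  have hdeg : f.natDegree = (R α).card := by
    have h3 := congrArg Polynomial.natDegree h2
    rw [natDegree_map_eq_of_injective (RingHom.injective_int _), natDegree_C_mul hlc',
      natDegree_prod_of_monic _ _ fun γ _ => monic_X_sub_C γ] at h3
    simpa using h3
  have hroots : (∏ γ ∈ R α, (X - C γ : Qb[X])).roots = (R α).val := by
    exact roots_prod_X_sub_C (R α)
  have h4 : f.map (Int.castRingHom ℂ) = (f.map (algebraMap ℤ Qb)).map ι := by
    rw [Polynomial.map_map]
    congr 1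
    exact RingHom.ext_int _ _
  have hM : Real.log (f.map (Int.castRingHom ℂ)).mahlerMeasure =
      Real.log |(f.leadingCoeff : ℝ)| + ∑ γ ∈ R α, Real.log (max 1 ‖ι γ‖) := by
    rw [h4, h2, Polynomial.map_mul, map_C, mahlerMeasure_mul, mahlerMeasure_const]
    have h5 := mahlerMeasure_pos_of_ne_zero (hmonp.map ι).ne_zero
    have h6 : ‖ι (f.leadingCoeff : Qb)‖ = |(f.leadingCoeff : ℝ)| := by
      rw [map_intCast, Complex.norm_intCast]
    have h7 : (0 : ℝ) < |(f.leadingCoeff : ℝ)| := abs_pos.2 (by exact_mod_cast hlc)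
    rw [h6, Real.log_mul h7.ne' h5.ne', log_mahler ι _ hmonp (by rw [hroots]; exact (R α).nodup),
      hroots, Finset.val_toFinset]
  have hcard : (0 : ℝ) < (R α).card := by
    exact_mod_cast Finset.card_pos.2 ⟨α, self_R α⟩
  rw [hM, hdeg, mul_div_assoc', le_div_iff₀ hcard]
  exact h1

end Pool.Agent.V5helper13.RSM
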