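import Pool.Agent.V5helper13.RSM.Cnt
import Pool.Agent.Y730.ND.Int

set_option autoImplicit false

/-!
# Relative Smyth theorem: valuations (numbers which are not integral)
-/

open Polynomial

namespace Pool.Agent.V5helper13.RSM

section
variable {G : Type} [LinearOrderedCommGroupWithZero G] (w : Valuation Qb G)

lemma coeff_prod_le (T : Finset Qb) : ∀ j : ℕ, w ((∏ γ ∈ T, (X - C γ)).coeff j) ≤
    ∏ γ ∈ T, max 1 (w γ) := by
  induction T using Finset.induction_on with
  | empty =>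
    intro j
    rw [Finset.prod_empty, Finset.prod_empty, coeff_one]
    split_ifs
    · rw [map_one]
    · rw [map_zero]
      exact zero_le_one
  | insert a T ha ih =>
    intro j
    rw [Finset.prod_insert ha, Finset.prod_insert ha, sub_mul, coeff_sub, coeff_C_mul]
    refine (w.map_sub _ _).trans (max_le ?_ ?_)
    · cases j with
      | zero =>
        rw [coeff_X_mul_zero, map_zero]
        exact zero_le
      | succ j =>
        rw [coeff_X_mul]
        calc w ((∏ γ ∈ T, (X - C γ)).coeff j) ≤ ∏ γ ∈ T, max 1 (w γ) := ih j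
          _ = 1 * ∏ γ ∈ T, max 1 (w γ) := (one_mul _).symm
          _ ≤ _ := mul_le_mul_left (le_max_left _ _) _
    · rw [map_mul]
      exact mul_le_mul' (le_max_right _ _) (ih j)

lemma gp_prod (c : Qb ≃ₐ[ℚ] Qb) (β : Qb) : gp c β = ∏ γ ∈ S c β, (X - C γ) := by
  have h1 := (IsAlgClosed.splits (gp c β)).eq_prod_roots_of_monic (gp_monic c β)
  conv_lhs => rw [h1]
  unfold Finset.prod
  rw [S, Multiset.toFinset_val, (gp_nodup c β).dedup]

/-- the Gauss norm of `gp c β` -/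
noncomputable def gn (c : Qb ≃ₐ[ℚ] Qb) (β : Qb) : G := ∏ γ ∈ S c β, max 1 (w γ)

lemma one_le_gn (c : Qb ≃ₐ[ℚ] Qb) (β : Qb) : 1 ≤ gn w c β :=
  Finset.one_le_prod' fun _ _ => le_max_left _ _

lemma coeff_gp_le (c : Qb ≃ₐ[ℚ] Qb) (β : Qb) (j : ℕ) : w ((gp c β).coeff j) ≤ gn w c β := by
  rw [gp_prod]
  exact coeff_prod_le w _ j

lemma prod_gn (c : Qb ≃ₐ[ℚ] Qb) (α : Qb) :
    ∏ β ∈ R α, gn w c β =
      (∏ γ ∈ R α, max 1 (w γ)) ^ (minpoly (cmField c) α).natDegree := by
  have h1 : ∀ β ∈ R α, gn w c β = ∏ γ ∈ R α, if γ ∈ S c β then max 1 (w γ) else 1 := by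
    intro β hβ
    rw [gn, ← Finset.prod_filter]
    congr 1
    ext γ
    rw [Finset.mem_filter]
    exact ⟨fun h => ⟨S_sub hβ h, h⟩, fun h => h.2⟩
  rw [Finset.prod_congr rfl h1, Finset.prod_comm, ← Finset.prod_pow]
  refine Finset.prod_congr rfl fun γ hγ => ?_
  have h2 : ∀ β ∈ R α, (if γ ∈ S c β then max 1 (w γ) else 1) =
      if β ∈ S c γ then max 1 (w γ) else 1 := by
    intro β _
    by_cases h : γ ∈ S c β
    · rw [if_pos h, if_pos (S_symm h)]
    · rw [if_neg h, if_neg (fun h' => h (S_symm h'))]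
  rw [Finset.prod_congr rfl h2, ← Finset.prod_filter]
  have h3 : (R α).filter (fun β => β ∈ S c γ) = S c γ := by
    ext β
    rw [Finset.mem_filter]
    exact ⟨fun h => h.2, fun h => ⟨S_sub hγ h, h⟩⟩
  rw [h3, Finset.prod_const, card_S]
  obtain ⟨σ, rfl⟩ := exists_conj hγ
  rw [deg_eq]

end

/-- an integral polynomial and the conjugates -/
lemma map_eq (f : ℤ[X]) (hf : Irreducible f) (α : Qb) (h : aeval α f = 0) :
    f.map (algebraMap ℤ Qb) = C (f.leadingCoeff : Qb) * ∏ γ ∈ R α, (X - C γ) := by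
  have hdeg : f.natDegree ≠ 0 := by
    intro h0
    rw [eq_C_of_natDegree_eq_zero h0] at h hf
    rw [aeval_C] at h
    have h1 : f.coeff 0 = 0 := by
      have : ((f.coeff 0 : ℤ) : Qb) = 0 := by simpa using h
      exact_mod_cast this
    rw [h1, C_0] at hf
    exact hf.ne_zero rfl
  have hprim : f.IsPrimitive := hf.isPrimitive hdeg
  have hirr : Irreducible (f.map (algebraMap ℤ ℚ)) :=
    (IsPrimitive.Int.irreducible_iff_irreducible_map_cast hprim).1 hf
  have hroot : aeval α (f.map (algebraMap ℤ ℚ)) = 0 := by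
    rw [aeval_map_algebraMap]
    exact h
  have h1 := minpoly.eq_of_irreducible hirr hroot
  have hlc : (f.map (algebraMap ℤ ℚ)).leadingCoeff = (f.leadingCoeff : ℚ) := by
    rw [leadingCoeff_map_of_injective (RingHom.injective_int _)]
    rfl
  have hlc0 : (f.leadingCoeff : ℚ) ≠ 0 := by
    exact_mod_cast leadingCoeff_ne_zero.2 hf.ne_zero
  have h2 : f.map (algebraMap ℤ ℚ) = C (f.leadingCoeff : ℚ) * minpoly ℚ α := by
    rw [← h1, hlc, mul_comm, mul_assoc, ← C_mul, inv_mul_cancel₀ hlc0, C_1, mul_one]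
  have h3 : f.map (algebraMap ℤ Qb) = (f.map (algebraMap ℤ ℚ)).map (algebraMap ℚ Qb) := by
    rw [Polynomial.map_map]
    congr 1
  have h7 : (minpoly ℚ α).map (algebraMap ℚ Qb) = ∏ γ ∈ R α, (X - C γ) := by
    have h4 : (minpoly ℚ α).Separable := (minpoly.irreducible (isIntQ α)).separable
    have h5 : ((minpoly ℚ α).aroots Qb).Nodup := nodup_roots (h4.map)
    have h6 := (IsAlgClosed.splits ((minpoly ℚ α).map (algebraMap ℚ Qb))).eq_prod_roots_of_monic
      ((minpoly.monic (isIntQ α)).map _)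
    conv_lhs => rw [h6]
    unfold Finset.prod
    rw [R, Multiset.toFinset_val, h5.dedup]
  have h8 : algebraMap ℚ Qb (f.leadingCoeff : ℚ) = (f.leadingCoeff : Qb) := by simp
  rw [h3, h2, Polynomial.map_mul, map_C, h7, h8]

lemma val_le (f : ℤ[X]) (hf : Irreducible f) (α : Qb) (h : aeval α f = 0)
    {G : Type} [LinearOrderedCommGroupWithZero G] (w : Valuation Qb G)
    (hw : ∀ x : Qb, IsIntegral ℤ x → w x ≤ 1) :
    w (f.leadingCoeff : Qb) * ∏ γ ∈ R α, max 1 (w γ) ≤ 1 := by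
  have h1 := Pool.Agent.Y730.ND.Int.isIntegral_mul_prod_subset (f.leadingCoeff : Qb) (fun γ : Qb => γ)
    (R α) ((R α).filter fun γ => 1 < w γ) (Finset.filter_subset _ _) (by
      intro i
      rw [← map_eq f hf α h, coeff_map]
      exact isIntegral_algebraMap)
  have h2 := hw _ h1
  rw [map_mul, map_prod] at h2
  have h3 : ∏ γ ∈ R α, max 1 (w γ) = ∏ γ ∈ (R α).filter (fun γ => 1 < w γ), w γ := by
    rw [Finset.prod_filter]
    refine Finset.prod_congr rfl fun γ _ => ?_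
    split_ifs with hh
    · exact max_eq_right hh.le
    · exact max_eq_left (not_lt.1 hh)
  rw [h3]
  exact h2

lemma isIntegral_of_val (x : Qb) (h : ∀ V : ValuationSubring Qb, V.valuation x ≤ 1) :
    IsIntegral ℤ x := by
  by_contra hcon
  have h1 : x ∉ (integralClosure ℤ Qb).toSubring := hcon
  obtain ⟨V, -, hV⟩ := Subring.exists_le_valuationSubring_of_isIntegrallyClosedIn h1
  rw [← ValuationSubring.valuation_le_one_iff] at hV
  exact hV (h V)

lemma val_int (V : ValuationSubring Qb) (x : Qb) (hx : IsIntegral ℤ x) : V.valuation x ≤ 1 := by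
  rw [ValuationSubring.valuation_le_one_iff]
  have h3 : IsIntegral V x := hx.tower_top
  obtain ⟨z, hz⟩ := IsIntegrallyClosed.isIntegral_iff.mp h3
  rw [← hz]
  exact z.2

lemma int_gp (c : Qb ≃ₐ[ℚ] Qb) (f : ℤ[X]) (hf : Irreducible f) (α : Qb) (h : aeval α f = 0) :
    IsIntegral ℤ ((f.leadingCoeff : Qb) ^ (minpoly (cmField c) α).natDegree *
      ∏ β ∈ R α, (gp c β).coeff 0) := by
  refine isIntegral_of_val _ fun V => ?_
  have h1 := val_le f hf α h V.valuation (val_int V)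
  rw [map_mul, map_pow, map_prod]
  calc _ ≤ V.valuation (f.leadingCoeff : Qb) ^ (minpoly (cmField c) α).natDegree *
        ∏ β ∈ R α, gn V.valuation c β :=
        mul_le_mul_right (Finset.prod_le_prod' fun β _ => coeff_gp_le _ c β 0) _
    _ = (V.valuation (f.leadingCoeff : Qb) * ∏ γ ∈ R α, max 1 (V.valuation γ)) ^
        (minpoly (cmField c) α).natDegree := by rw [prod_gn, mul_pow]
    _ ≤ 1 := pow_le_one' h1 _

lemma int_ep (c : Qb ≃ₐ[ℚ] Qb) (f : ℤ[X]) (hf : Irreducible f) (α : Qb) (h : aeval α f = 0)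
    (k : ℕ) :
    IsIntegral ℤ ((f.leadingCoeff : Qb) ^ (2 * (minpoly (cmField c) α).natDegree) *
      ∏ β ∈ R α, (ep c (gp c β)).coeff k) := by
  refine isIntegral_of_val _ fun V => ?_
  set v := V.valuation with hv
  set v' := v.comap (c : Qb →+* Qb) with hv'
  have h1 := val_le f hf α h v (val_int V)
  have h2 := val_le f hf α h v' (fun x hx => val_int V _ (hx.map ((c : Qb →+* Qb).toIntAlgHom)))
  have h3 : v' (f.leadingCoeff : Qb) = v (f.leadingCoeff : Qb) := by
    rw [hv', Valuation.comap_apply]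
    simp
  rw [h3] at h2
  have hb : ∀ β ∈ R α, v ((ep c (gp c β)).coeff k) ≤ gn v c β * gn v' c β := by
    intro β _
    rw [ep, coeff_sub, coeff_C_mul, coeff_reverse, coeff_map]
    refine (v.map_sub _ _).trans (max_le ?_ ?_)
    · calc v ((gp c β).coeff k) ≤ gn v c β := coeff_gp_le v c β k
        _ = gn v c β * 1 := (mul_one _).symm
        _ ≤ _ := mul_le_mul_right (one_le_gn v' c β) _
    · rw [map_mul]
      refine mul_le_mul' (coeff_gp_le v c β 0) ?_
      exact coeff_gp_le v' c β _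
  rw [map_mul, map_pow, map_prod]
  calc _ ≤ v (f.leadingCoeff : Qb) ^ (2 * (minpoly (cmField c) α).natDegree) *
        ∏ β ∈ R α, (gn v c β * gn v' c β) :=
        mul_le_mul_right (Finset.prod_le_prod' hb) _
    _ = ((v (f.leadingCoeff : Qb) * ∏ γ ∈ R α, max 1 (v γ)) *
        (v (f.leadingCoeff : Qb) * ∏ γ ∈ R α, max 1 (v' γ))) ^
        (minpoly (cmField c) α).natDegree := by
        rw [Finset.prod_mul_distrib, prod_gn, prod_gn, pow_mul, ← mul_pow, ← mul_pow]
        congr 1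
        rw [sq]
        exact mul_mul_mul_comm _ _ _ _
    _ ≤ 1 := pow_le_one' (mul_le_one' h1 h2) _

/-- the product of the values of an equivariant function -/
lemma prod_ge2 (ι : Qb →+* ℂ) (α : Qb) (φ : Qb → Qb)
    (heq : ∀ (σ : Qb ≃ₐ[ℚ] Qb) (β : Qb), σ (φ β) = φ (σ β)) (hne : ∀ β ∈ R α, φ β ≠ 0)
    (a : ℤ) (ha : a ≠ 0) (m : ℕ) (hint : IsIntegral ℤ ((a : Qb) ^ m * ∏ β ∈ R α, φ β)) :
    1 ≤ |(a : ℝ)| ^ m * ∏ β ∈ R α, ‖ι (φ β)‖ := by
  have hfix : ∀ σ : Qb ≃ₐ[ℚ] Qb, σ ((a : Qb) ^ m * ∏ β ∈ R α, φ β) =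
      (a : Qb) ^ m * ∏ β ∈ R α, φ β := by
    intro σ
    rw [map_mul, map_pow, map_intCast, map_prod]
    congr 1
    refine Finset.prod_nbij' (fun β => σ β) (fun β => σ.symm β) ?_ ?_ ?_ ?_ ?_
    · intro β hβ
      exact R_stable σ hβ
    · intro β hβ
      exact R_stable σ.symm hβ
    · intro β _
      simp
    · intro β _
      simp
    · intro β _
      exact heq σ β
  obtain ⟨q, hq⟩ := IntermediateField.mem_bot.1 ((InfiniteGalois.mem_bot_iff_fixed _).2 hfix)
  have hqint : IsIntegral ℤ q := by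
    rw [← hq] at hint
    exact (isIntegral_algebraMap_iff (algebraMap ℚ Qb).injective).1 hint
  obtain ⟨z, hz⟩ := IsIntegrallyClosed.isIntegral_iff.1 hqint
  have ha' : (a : Qb) ≠ 0 := by exact_mod_cast ha
  have hN0 : (a : Qb) ^ m * (∏ β ∈ R α, φ β) ≠ 0 :=
    mul_ne_zero (pow_ne_zero _ ha') (Finset.prod_ne_zero_iff.2 hne)
  have hz0 : z ≠ 0 := by
    rintro rfl
    rw [map_zero] at hz
    rw [← hz, map_zero] at hq
    exact hN0 hq.symm
  have h1 : |(a : ℝ)| ^ m * ∏ β ∈ R α, ‖ι (φ β)‖ = ‖(z : ℂ)‖ := by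
    have h2 : |(a : ℝ)| = ‖ι (a : Qb)‖ := by
      rw [map_intCast, Complex.norm_intCast]
    rw [h2, ← norm_pow, ← norm_prod, ← norm_mul, ← map_prod, ← map_pow, ← map_mul, ← hq, ← hz]
    congr 1
    simp
  rw [h1, Complex.norm_intCast]
  exact_mod_cast Int.one_le_abs hz0

end Pool.Agent.V5helper13.RSM
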